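import Mathlib
import Pool.Agent.Y826.Z.Defs

/-! The grouping condition `GoodT` for tuples of moduli one part of which is arbitrary (of size at most
`x ^ (1 / 3 - ε)` altogether) and the rest of which consists of small factors. -/

set_option autoImplicit false

open Finset

namespace Pool.Agent.Q66.LD

open Pool.Agent.Y826.Z (GoodT)

/-- a subset of small elements with a sum close to a given number -/
lemma fill {ι : Type*} [DecidableEq ι] (x : ι → ℝ) {τ : ℝ} (S : Finset ι)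
    (h0 : ∀ j ∈ S, 0 ≤ x j) (h1 : ∀ j ∈ S, x j ≤ τ) (hτ : 0 ≤ τ) (c : ℝ) (hc0 : 0 ≤ c)
    (hc : c ≤ ∑ j ∈ S, x j) :
    ∃ T ⊆ S, ∑ j ∈ T, x j ≤ c ∧ c - τ ≤ ∑ j ∈ T, x j := by
  induction S using Finset.induction_on with
  | empty =>
    rw [Finset.sum_empty] at hc
    exact ⟨∅, Finset.Subset.refl _, by simpa using hc0, by rw [Finset.sum_empty]; linarith⟩
  | insert a S ha ih =>
    rw [Finset.sum_insert ha] at hc
    by_cases h : c ≤ ∑ j ∈ S, x j
    · obtain ⟨T, hT, h2, h3⟩ := ih (fun j hj => h0 j (mem_insert_of_mem hj))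
        (fun j hj => h1 j (mem_insert_of_mem hj)) h
      exact ⟨T, hT.trans (subset_insert _ _), h2, h3⟩
    · refine ⟨S, subset_insert _ _, by linarith, ?_⟩
      have := h1 a (mem_insert_self _ _)
      linarith

lemma group_nonneg {K : ℕ} {ε d : ℝ} (hε : 0 < ε) (hd : d = ε / 1000) (x : Fin K → ℝ)
    (hx : ∀ j, 0 ≤ x j) (R : Finset (Fin K)) (hR : ∑ j ∈ R, x j ≤ 1 / 3 - ε)
    (hS : ∀ j, j ∉ R → x j ≤ d) (hs1 : ∑ j, x j ≤ 43 / 84 - ε) (hs0 : 1 / 2 - d ≤ ∑ j, x j)
    (ν : ℝ) (hν0 : 1 / 3 - d ≤ ν) (hν1 : ν ≤ 1 / 2 + d) :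
    ∃ g : Fin K → Fin 5, ∀ y : Fin 5 → ℝ, (∀ i, y i = ∑ j ∈ univ.filter (fun j => g j = i), x j) →
    ∀ η : ℝ, η = max 0 (y 0 + y 1 + 2 * y 2 + 2 * y 3 + 2 * y 4 - (1 - ν)) →
    y 0 + y 1 ≤ ν - d ∧ y 0 + y 1 + 2 * y 2 + 2 * y 3 ≤ 1 - ν - d ∧
      y 0 + 2 * y 2 + 4 * y 4 + 4 * η ≤ ν - d ∧
      y 1 + 2 * y 3 + 8 * η ≤ 2 * ν - d ∧ 8 * η + d ≤ y 1 + 2 * y 3 := by
  classical
  have hd0 : 0 < d := by rw [hd]; positivity
  have hεd : ε = 1000 * d := by rw [hd]; ring
  set s := ∑ j, x j with hs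
  set xR := ∑ j ∈ R, x j with hxR
  have hxR0 : 0 ≤ xR := Finset.sum_nonneg fun j _ => hx j
  -- targets
  set m1 := max 0 (8 * (s - 1 / 2) + 48 * d) with hm1
  set m2 := max 0 (16 * (s - 1 / 2) + 96 * d) with hm2
  have hm12 : m2 = 2 * m1 := by
    rw [hm1, hm2, mul_max_of_nonneg _ _ (by norm_num : (0 : ℝ) ≤ 2)]
    congr 1
    · norm_num
    · ring
  have hm1a : 0 ≤ m1 := le_max_left _ _
  have hm1b : 8 * (s - 1 / 2) + 48 * d ≤ m1 := le_max_right _ _
  have hm1c : m1 ≤ 8 / 84 - 8 * ε + 48 * d ∨ m1 ≤ 0 := by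
    rcases le_total 0 (8 * (s - 1 / 2) + 48 * d) with h | h
    · left; rw [hm1, max_eq_right h]; linarith
    · right; rw [hm1, max_eq_left h]
  have hεu : ε ≤ 1 / 84 + d := by linarith
  have hm1d : m1 ≤ 8 / 84 - 8 * ε + 56 * d := by
    rcases hm1c with h | h
    · linarith
    · linarith
  have hm1e : 4 * (s - 1 / 2) + m1 ≤ 12 / 84 - 12 * ε + 60 * d := by linarith
  set A := ν - 10 * d with hA
  set B := max 0 (1 / 2 - ν) with hB
  have hB0 : 0 ≤ B := le_max_left _ _
  have hB1 : 1 / 2 - ν ≤ B := le_max_right _ _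
  have hB2 : B ≤ 0 ∨ B ≤ 1 / 2 - ν := by
    rcases le_total 0 (1 / 2 - ν) with h | h
    · right; rw [hB, max_eq_right h]
    · left; rw [hB, max_eq_left h]
  have hAB : A + B ≤ s := by rcases hB2 with h | h <;> linarith
  have hA2B : A + 2 * B ≤ 1 - ν - 8 * d := by rcases hB2 with h | h <;> linarith
  have hA2Blow : 1 - ν - 10 * d ≤ A + 2 * B := by linarith
  set P := max (max xR (1 - 2 * ν + 52 * d + 4 * (s - 1 / 2) + m1)) (4 * d + m2) with hP
  have hP1 : xR ≤ P := (le_max_left _ _).trans (le_max_left _ _)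
  have hP2 : 1 - 2 * ν + 52 * d + 4 * (s - 1 / 2) + m1 ≤ P := (le_max_right _ _).trans (le_max_left _ _)
  have hP3 : 4 * d + m2 ≤ P := le_max_right _ _
  have hP4 : P ≤ A + 2 * B := by
    refine max_le (max_le ?_ ?_) ?_ <;> linarith
  have hP5 : P ≤ 2 * ν - d - m2 := by
    refine max_le (max_le ?_ ?_) ?_ <;> linarith
  set Y1 := min A P with hY1
  have hY1a : Y1 ≤ A := min_le_left _ _
  have hY1b : Y1 ≤ P := min_le_right _ _
  have hY1c : xR ≤ Y1 := le_min (by linarith) hP1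
  set Y3 := (P - Y1) / 2 with hY3
  have hY30 : 0 ≤ Y3 := by rw [hY3]; linarith
  have hY3B : Y3 ≤ B := by
    rcases le_total A P with h | h
    · rw [hY3, hY1, min_eq_left h]; linarith
    · rw [hY3, hY1, min_eq_right h]; linarith
  have hPe : Y1 + 2 * Y3 = P := by rw [hY3]; ring
  -- filling
  set S := univ \ R with hSdef
  have hSR : ∑ j ∈ S, x j = s - xR := by
    rw [hSdef, ← Finset.sum_sdiff (subset_univ R)] at *
    linarith
  have hsm : ∀ j ∈ S, x j ≤ d := fun j hj => hS j (by simpa [hSdef] using hj)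
  obtain ⟨T1, hT1, f1a, f1b⟩ := fill x S (fun j _ => hx j) hsm hd0.le (Y1 - xR) (by linarith)
    (by rw [hSR]; linarith)
  have e1 : ∑ j ∈ S \ T1, x j = s - xR - ∑ j ∈ T1, x j := by
    have := Finset.sum_sdiff (f := x) hT1
    linarith
  obtain ⟨T3, hT3, f3a, f3b⟩ := fill x (S \ T1) (fun j _ => hx j)
    (fun j hj => hsm j (mem_sdiff.1 hj).1) hd0.le Y3 hY30 (by rw [e1]; linarith)
  have e3 : ∑ j ∈ (S \ T1) \ T3, x j = s - xR - ∑ j ∈ T1, x j - ∑ j ∈ T3, x j := by
    have := Finset.sum_sdiff (f := x) hT3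
    linarith
  obtain ⟨T0, hT0, f0a, f0b⟩ := fill x ((S \ T1) \ T3) (fun j _ => hx j)
    (fun j hj => hsm j (mem_sdiff.1 (mem_sdiff.1 hj).1).1) hd0.le (A - Y1) (by linarith)
    (by rw [e3]; linarith)
  have e0 : ∑ j ∈ ((S \ T1) \ T3) \ T0, x j =
      s - xR - ∑ j ∈ T1, x j - ∑ j ∈ T3, x j - ∑ j ∈ T0, x j := by
    have := Finset.sum_sdiff (f := x) hT0
    linarith
  obtain ⟨T2, hT2, f2a, f2b⟩ := fill x (((S \ T1) \ T3) \ T0) (fun j _ => hx j)
    (fun j hj => hsm j (mem_sdiff.1 (mem_sdiff.1 (mem_sdiff.1 hj).1).1).1) hd0.le (B - Y3) (by linarith)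
    (by rw [e0]; linarith)
  refine ⟨fun j => if j ∈ R ∨ j ∈ T1 then 1 else if j ∈ T3 then 3 else if j ∈ T0 then 0 else
    if j ∈ T2 then 2 else 4, ?_⟩
  intro y hy η hη
  have mT1 : ∀ j ∈ T1, j ∉ R := fun j hj => by
    have := hT1 hj; simpa [hSdef] using this
  have mT3 : ∀ j ∈ T3, j ∉ R ∧ j ∉ T1 := fun j hj => by
    have := hT3 hj
    rw [mem_sdiff, hSdef, mem_sdiff] at this
    exact ⟨this.1.2, this.2⟩
  have mT0 : ∀ j ∈ T0, j ∉ R ∧ j ∉ T1 ∧ j ∉ T3 := fun j hj => by
    have := hT0 hj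
    rw [mem_sdiff, mem_sdiff, hSdef, mem_sdiff] at this
    exact ⟨this.1.1.2, this.1.2, this.2⟩
  have mT2 : ∀ j ∈ T2, j ∉ R ∧ j ∉ T1 ∧ j ∉ T3 ∧ j ∉ T0 := fun j hj => by
    have := hT2 hj
    rw [mem_sdiff, mem_sdiff, mem_sdiff, hSdef, mem_sdiff] at this
    exact ⟨this.1.1.1.2, this.1.1.2, this.1.2, this.2⟩
  have y1 : y 1 = xR + ∑ j ∈ T1, x j := by
    rw [hy 1, hxR, ← Finset.sum_union (Finset.disjoint_left.2 fun j h1 h2 => mT1 j h2 h1)]
    refine Finset.sum_congr ?_ fun _ _ => rfl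
    ext j
    simp only [mem_filter, mem_univ, true_and, mem_union]
    constructor
    · intro h
      by_contra hc
      rw [if_neg hc] at h
      split_ifs at h <;> simp at h
    · intro h; rw [if_pos h]
  have y3 : y 3 = ∑ j ∈ T3, x j := by
    rw [hy 3]
    refine Finset.sum_congr ?_ fun _ _ => rfl
    ext j
    simp only [mem_filter, mem_univ, true_and]
    constructor
    · intro h
      by_contra hc
      split_ifs at h <;> simp at h
    · intro h
      have := mT3 j h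
      rw [if_neg (by tauto), if_pos h]
  have y0 : y 0 = ∑ j ∈ T0, x j := by
    rw [hy 0]
    refine Finset.sum_congr ?_ fun _ _ => rfl
    ext j
    simp only [mem_filter, mem_univ, true_and]
    constructor
    · intro h
      by_contra hc
      split_ifs at h <;> simp at h
    · intro h
      have := mT0 j h
      rw [if_neg (by tauto), if_neg (by tauto), if_pos h]
  have y2 : y 2 = ∑ j ∈ T2, x j := by
    rw [hy 2]
    refine Finset.sum_congr ?_ fun _ _ => rfl
    ext j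
    simp only [mem_filter, mem_univ, true_and]
    constructor
    · intro h
      by_contra hc
      split_ifs at h <;> simp at h
    · intro h
      have := mT2 j h
      rw [if_neg (by tauto), if_neg (by tauto), if_neg (by tauto), if_pos h]
  have yall : y 0 + y 1 + y 2 + y 3 + y 4 = s := by
    have h1 : ∑ i : Fin 5, y i = s := by
      rw [hs, Finset.sum_congr rfl fun i _ => hy i]
      exact Finset.sum_fiberwise _ _ _
    rw [Fin.sum_univ_five] at h1
    exact h1
  have hη2 : η ≤ max 0 (2 * (s - 1 / 2) + 12 * d) := by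
    rw [hη]
    apply max_le_max le_rfl
    linarith
  have hη4 : 4 * η ≤ m1 := by
    have h1 : 4 * max 0 (2 * (s - 1 / 2) + 12 * d) = m1 := by
      rw [hm1, mul_max_of_nonneg _ _ (by norm_num : (0 : ℝ) ≤ 4)]
      congr 1
      · norm_num
      · ring
    linarith
  refine ⟨by linarith, by linarith, by linarith, by linarith, by linarith⟩

/-- **The grouping condition** holds if the coordinates in `R` have a sum of at most `1 / 3 - ε`, the others are at
most `ε / 1000`, and the sum of all the coordinates is at most `43 / 84 - ε`. -/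
theorem goodT_struct {K : ℕ} {ε : ℝ} (hε : 0 < ε) (t : Fin K → ℝ) (ht : ∀ j, 0 ≤ t j)
    (R : Finset (Fin K)) (hR : ∑ j ∈ R, t j ≤ 1 / 3 - ε) (hS : ∀ j, j ∉ R → t j ≤ ε / 1000)
    (hs : ∑ j, t j ≤ 43 / 84 - ε) : ∃ δ : ℝ, 0 < δ ∧ GoodT δ t := by
  set d := ε / 1000 with hd
  have hd0 : 0 < d := by positivity
  refine ⟨d / (3 * K + 1), by positivity, ?_⟩
  set δ := d / (3 * K + 1) with hδ
  have hδ0 : 0 < δ := by positivity
  have hδe : δ * (3 * K + 1) = d := by rw [hδ]; field_simp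
  have hKδ : 0 ≤ (K : ℝ) * δ := by positivity
  have hδd : δ ≤ d := by nlinarith
  intro x hx hsx ν hν0 hν1
  set u : Fin K → ℝ := fun j => max 0 (x j) with hu
  have hu0 : ∀ j, 0 ≤ u j := fun j => le_max_left _ _
  have hxu : ∀ j, x j ≤ u j := fun j => le_max_right _ _
  have hut : ∀ j, u j ≤ t j := fun j => max_le (ht j) (hx j).2
  have hux : ∀ j, u j ≤ x j + δ := fun j => max_le (by linarith [(hx j).1]) (by linarith)
  obtain ⟨g, hg⟩ := group_nonneg hε hd u hu0 R ((Finset.sum_le_sum fun j _ => hut j).trans hR)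
    (fun j hj => (hut j).trans (hS j hj)) ((Finset.sum_le_sum fun j _ => hut j).trans hs)
    (by
      have : ∑ j, x j ≤ ∑ j, u j := Finset.sum_le_sum fun j _ => hxu j
      linarith) ν (by linarith) (by linarith)
  refine ⟨g, fun y hy η hη => ?_⟩
  obtain ⟨h1, h2, h3, h4, h5⟩ := hg (fun i => ∑ j ∈ univ.filter (fun j => g j = i), u j) (fun i => rfl) _ rfl
  have hyle : ∀ i, y i ≤ ∑ j ∈ univ.filter (fun j => g j = i), u j := fun i => by
    rw [hy i]; exact Finset.sum_le_sum fun j _ => hxu j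
  have hyge : ∀ i, ∑ j ∈ univ.filter (fun j => g j = i), u j ≤ y i + K * δ := fun i => by
    rw [hy i]
    calc ∑ j ∈ univ.filter (fun j => g j = i), u j ≤ ∑ j ∈ univ.filter (fun j => g j = i), (x j + δ) :=
          Finset.sum_le_sum fun j _ => hux j
      _ = ∑ j ∈ univ.filter (fun j => g j = i), x j + (univ.filter (fun j => g j = i)).card * δ := by
          rw [Finset.sum_add_distrib, Finset.sum_const, nsmul_eq_mul]
      _ ≤ _ := by
          have hc : ((univ.filter (fun j => g j = i)).card : ℝ) ≤ K := by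
            have := Finset.card_le_univ (univ.filter (fun j => g j = i))
            rw [Fintype.card_fin] at this
            exact_mod_cast this
          nlinarith
  have a0 := hyle 0
  have a1 := hyle 1
  have a2 := hyle 2
  have a3 := hyle 3
  have a4 := hyle 4
  have b1 := hyge 1
  have b3 := hyge 3
  have hηle : η ≤ max 0 ((∑ j ∈ univ.filter (fun j => g j = 0), u j) +
      (∑ j ∈ univ.filter (fun j => g j = 1), u j) + 2 * (∑ j ∈ univ.filter (fun j => g j = 2), u j) +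
      2 * (∑ j ∈ univ.filter (fun j => g j = 3), u j) +
      2 * (∑ j ∈ univ.filter (fun j => g j = 4), u j) - (1 - ν)) := by
    rw [hη]
    apply max_le_max le_rfl
    linarith
  have hδ3 : δ * (3 * K + 1) = 3 * (K * δ) + δ := by ring
  refine ⟨by linarith, by linarith, by linarith, by linarith, by linarith⟩

end Pool.Agent.Q66.LD
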