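import Mathlib
import Pool.Agent.H378R2.Defs

/-! From the weight `Phi` of the library (a triangle on the logarithmic scale) to sharp cut-offs: the error
`ψ(y; Q, b) - ψ(y) / φ(Q)` is bounded by the errors with the weight `Phi` at many scales. -/

set_option autoImplicit false

open Finset

namespace Pool.Agent.Q66.LD

open Pool.Agent.H378R2 (Phi EPhi)
open ArithmeticFunction (vonMangoldt)

/-- the triangle -/
noncomputable def hat (v : ℝ) : ℝ := max 0 (1 / 2 - |v - 1 / 2|)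

lemma Phi_eq (u : ℝ) : Phi u = hat (Real.log u) := rfl

lemma hat_left {v : ℝ} (h : v ≤ 0) : hat v = 0 := by
  unfold hat
  rw [abs_of_nonpos (by linarith)]
  exact max_eq_left (by linarith)

lemma hat_right {v : ℝ} (h : 1 ≤ v) : hat v = 0 := by
  unfold hat
  rw [abs_of_nonneg (by linarith)]
  exact max_eq_left (by linarith)

lemma hat_up {v : ℝ} (h0 : 0 ≤ v) (h1 : v ≤ 1 / 2) : hat v = v := by
  unfold hat
  rw [abs_of_nonpos (by linarith), max_eq_right (by linarith)]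
  ring

lemma hat_down {v : ℝ} (h0 : 1 / 2 ≤ v) (h1 : v ≤ 1) : hat v = 1 - v := by
  unfold hat
  rw [abs_of_nonneg (by linarith), max_eq_right (by linarith)]
  ring

/-- the combination of triangles is a ramp -/
lemma hat_sum (J : ℕ) :
    (∀ w : ℝ, w ≤ (J : ℝ) / 2 → ∑ j ∈ range J, ((j : ℝ) + 1) * hat (1 + j / 2 - w) = max 0 w) ∧
    (∀ w : ℝ, (J : ℝ) / 2 ≤ w → w ≤ ((J : ℝ) + 1) / 2 →
      ∑ j ∈ range J, ((j : ℝ) + 1) * hat (1 + j / 2 - w) = J * (((J : ℝ) + 1) / 2 - w)) ∧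
    (∀ w : ℝ, ((J : ℝ) + 1) / 2 ≤ w → ∑ j ∈ range J, ((j : ℝ) + 1) * hat (1 + j / 2 - w) = 0) := by
  induction J with
  | zero =>
    refine ⟨fun w hw => ?_, fun w h0 h1 => ?_, fun w h => ?_⟩
    · rw [Finset.sum_range_zero, max_eq_left]
      simpa using hw
    · simp
    · simp
  | succ J ih =>
    obtain ⟨i1, i2, i3⟩ := ih
    refine ⟨fun w hw => ?_, fun w h0 h1 => ?_, fun w h => ?_⟩
    · rw [Finset.sum_range_succ]
      push_cast at hw
      rcases le_total w ((J : ℝ) / 2) with h | h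
      · rw [i1 w h, hat_right (by linarith)]; ring
      · rw [i2 w h hw, hat_down (by linarith) (by linarith), max_eq_right]
        · ring
        · exact le_trans (by positivity) h
    · rw [Finset.sum_range_succ]
      push_cast at h0 h1 ⊢
      rw [i3 w h0, hat_up (by linarith) (by linarith)]
      ring
    · rw [Finset.sum_range_succ]
      push_cast at h
      rw [i3 w (by linarith), hat_left (by linarith)]
      ring

/-- the coefficients of the error -/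
noncomputable def dev (Q b n : ℕ) : ℝ :=
  vonMangoldt n * ((if n ≡ b [MOD Q] then 1 else 0) - 1 / (Nat.totient Q : ℝ))

/-- the error `ψ(y; Q, b) - ψ(y) / φ(Q)` for the Chebyshev functions -/
noncomputable def psiErr (y : ℝ) (Q b : ℕ) : ℝ :=
  ∑ n ∈ (Icc 1 ⌊y⌋₊).filter (fun n => n ≡ b [MOD Q]), vonMangoldt n -
    (1 / (Nat.totient Q : ℝ)) * ∑ n ∈ Icc 1 ⌊y⌋₊, vonMangoldt n

lemma psiErr_eq (y : ℝ) (Q b : ℕ) : psiErr y Q b = ∑ n ∈ Icc 1 ⌊y⌋₊, dev Q b n := by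
  unfold psiErr dev
  rw [Finset.sum_filter, Finset.mul_sum, ← Finset.sum_sub_distrib]
  refine Finset.sum_congr rfl fun n _ => ?_
  split_ifs <;> ring

lemma Phi_big {u : ℝ} (h : 3 < u) : Phi u = 0 := by
  rw [Phi_eq]
  apply hat_right
  rw [Real.le_log_iff_exp_le (by linarith)]
  have := Real.exp_one_lt_d9
  linarith

lemma EPhi_eq {Y : ℝ} (hY : 0 < Y) (Q b : ℕ) {N : ℕ} (hN : ⌊3 * Y⌋₊ ≤ N) :
    EPhi Y Q b = ∑ n ∈ Icc 1 N, Phi (n / Y) * dev Q b n := by
  have h1 : ∑ n ∈ Icc 1 N, Phi (n / Y) * dev Q b n = ∑ n ∈ Icc 1 ⌊3 * Y⌋₊, Phi (n / Y) * dev Q b n := by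
    symm
    apply Finset.sum_subset
    · exact Finset.Icc_subset_Icc le_rfl hN
    · intro n hn hn2
      rw [mem_Icc] at hn hn2
      have h3 : ⌊3 * Y⌋₊ < n := by omega
      have h4 : 3 * Y < n := (Nat.floor_lt (by positivity)).1 h3
      rw [Phi_big ((lt_div_iff₀ hY).2 h4), zero_mul]
  rw [h1]
  unfold EPhi dev
  rw [Finset.sum_filter, Finset.mul_sum, ← Finset.sum_sub_distrib]
  refine Finset.sum_congr rfl fun n _ => ?_
  split_ifs <;> ring

/-- the error with a logarithmic weight -/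
noncomputable def HH (y : ℝ) (Q b : ℕ) : ℝ := ∑ n ∈ Icc 1 ⌊y⌋₊, dev Q b n * (Real.log y - Real.log n)

lemma HH_eq {y : ℝ} (hy : 0 < y) (J : ℕ) (hJ : Real.log y ≤ (J : ℝ) / 2) (Q b : ℕ) :
    HH y Q b = ∑ j ∈ range J, ((j : ℝ) + 1) * EPhi (y * Real.exp (-1 - j / 2)) Q b := by
  have h1 : ∀ j ∈ range J, EPhi (y * Real.exp (-1 - j / 2)) Q b =
      ∑ n ∈ Icc 1 ⌊2 * y⌋₊, Phi (n / (y * Real.exp (-1 - j / 2))) * dev Q b n := by
    intro j _
    apply EPhi_eq (by positivity)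
    apply Nat.floor_le_floor
    have h2 : Real.exp (-1 - (j : ℝ) / 2) ≤ Real.exp (-1) := Real.exp_le_exp.2 (by
      have : (0 : ℝ) ≤ (j : ℝ) / 2 := by positivity
      linarith)
    have h3 : Real.exp (-1) ≤ 1 / 2 := by
      rw [Real.exp_neg, one_div]
      apply inv_anti₀ (by norm_num)
      have := Real.exp_one_gt_d9
      linarith
    nlinarith
  rw [Finset.sum_congr rfl fun j hj => by rw [h1 j hj]]
  simp only [Finset.mul_sum]
  rw [Finset.sum_comm]
  have h2 : ∀ n ∈ Icc 1 ⌊2 * y⌋₊, ∑ j ∈ range J, ((j : ℝ) + 1) *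
      (Phi (n / (y * Real.exp (-1 - j / 2))) * dev Q b n) = dev Q b n * max 0 (Real.log y - Real.log n) := by
    intro n hn
    rw [mem_Icc] at hn
    have hn0 : (0 : ℝ) < n := by exact_mod_cast hn.1
    have hln : 0 ≤ Real.log n := Real.log_nonneg (by exact_mod_cast hn.1)
    rw [← (hat_sum J).1 (Real.log y - Real.log n) (by linarith), Finset.mul_sum]
    refine Finset.sum_congr rfl fun j _ => ?_
    rw [Phi_eq, Real.log_div hn0.ne' (by positivity), Real.log_mul hy.ne' (Real.exp_ne_zero _), Real.log_exp]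
    rw [show Real.log n - (Real.log y + (-1 - (j : ℝ) / 2)) = 1 + (j : ℝ) / 2 - (Real.log y - Real.log n) by ring]
    ring
  rw [Finset.sum_congr rfl h2]
  unfold HH
  have h3 : ∑ n ∈ Icc 1 ⌊2 * y⌋₊, dev Q b n * max 0 (Real.log y - Real.log n) =
      ∑ n ∈ Icc 1 ⌊y⌋₊, dev Q b n * max 0 (Real.log y - Real.log n) := by
    symm
    apply Finset.sum_subset
    · exact Finset.Icc_subset_Icc le_rfl (Nat.floor_le_floor (by linarith))
    · intro n hn hn2
      rw [mem_Icc] at hn hn2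
      have h3 : ⌊y⌋₊ < n := by omega
      have h4 : y < n := (Nat.floor_lt hy.le).1 h3
      rw [max_eq_left, mul_zero]
      have := Real.log_le_log hy h4.le
      linarith
  rw [h3]
  refine Finset.sum_congr rfl fun n hn => ?_
  rw [mem_Icc] at hn
  have hn0 : (0 : ℝ) < n := by exact_mod_cast hn.1
  have hn1 : (n : ℝ) ≤ y := (Nat.le_floor_iff hy.le).1 hn.2
  rw [max_eq_right]
  have := Real.log_le_log hn0 hn1
  linarith

/-- from the logarithmic weight to the sharp cut-off -/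
lemma psiErr_le_HH {y1 y2 y : ℝ} (h0 : 0 < y1) (h12 : y1 < y2) (h1 : y1 ≤ y) (h2 : y ≤ y2) (Q b : ℕ) :
    |psiErr y Q b| ≤ (|HH y1 Q b| + |HH y2 Q b|) / (Real.log y2 - Real.log y1) +
      2 * ∑ n ∈ Ioc ⌊y1⌋₊ ⌊y2⌋₊, |dev Q b n| := by
  set h := Real.log y2 - Real.log y1 with hh
  have hpos : 0 < h := by
    have := Real.log_lt_log h0 h12
    linarith
  have hf12 : ⌊y1⌋₊ ≤ ⌊y2⌋₊ := Nat.floor_le_floor h12.le
  have hf1 : ⌊y1⌋₊ ≤ ⌊y⌋₊ := Nat.floor_le_floor h1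
  have hf2 : ⌊y⌋₊ ≤ ⌊y2⌋₊ := Nat.floor_le_floor h2
  have split : ∀ (f : ℕ → ℝ) (a c : ℕ), a ≤ c →
      ∑ n ∈ Icc 1 c, f n = ∑ n ∈ Icc 1 a, f n + ∑ n ∈ Ioc a c, f n := by
    intro f a c hac
    rw [← Finset.sum_union]
    · congr 1
      ext n
      simp only [mem_union, mem_Icc, mem_Ioc]
      omega
    · rw [Finset.disjoint_left]
      intro n hn hn2
      rw [mem_Icc] at hn
      rw [mem_Ioc] at hn2
      omega
  have e1 : HH y2 Q b - HH y1 Q b = psiErr y1 Q b * h +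
      ∑ n ∈ Ioc ⌊y1⌋₊ ⌊y2⌋₊, dev Q b n * (Real.log y2 - Real.log n) := by
    unfold HH
    rw [split _ _ _ hf12, psiErr_eq, Finset.sum_mul]
    have : ∑ n ∈ Icc 1 ⌊y1⌋₊, dev Q b n * (Real.log y2 - Real.log n) -
        ∑ n ∈ Icc 1 ⌊y1⌋₊, dev Q b n * (Real.log y1 - Real.log n) = ∑ n ∈ Icc 1 ⌊y1⌋₊, dev Q b n * h := by
      rw [← Finset.sum_sub_distrib]
      refine Finset.sum_congr rfl fun n _ => ?_
      rw [hh]; ring
    linarith
  have e2 : |∑ n ∈ Ioc ⌊y1⌋₊ ⌊y2⌋₊, dev Q b n * (Real.log y2 - Real.log n)| ≤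
      h * ∑ n ∈ Ioc ⌊y1⌋₊ ⌊y2⌋₊, |dev Q b n| := by
    refine (Finset.abs_sum_le_sum_abs _ _).trans ?_
    rw [Finset.mul_sum]
    refine Finset.sum_le_sum fun n hn => ?_
    rw [mem_Ioc] at hn
    have hn1 : y1 < n := (Nat.floor_lt h0.le).1 hn.1
    have hn0 : (0 : ℝ) < n := h0.trans hn1
    have hn2 : (n : ℝ) ≤ y2 := (Nat.le_floor_iff (h0.trans h12).le).1 hn.2
    have l1 := Real.log_le_log h0 hn1.le
    have l2 := Real.log_le_log hn0 hn2
    rw [abs_mul, abs_of_nonneg (by linarith : 0 ≤ Real.log y2 - Real.log n), mul_comm]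
    exact mul_le_mul_of_nonneg_right (by linarith) (abs_nonneg _)
  have e3 : |psiErr y1 Q b| ≤ (|HH y1 Q b| + |HH y2 Q b|) / h + ∑ n ∈ Ioc ⌊y1⌋₊ ⌊y2⌋₊, |dev Q b n| := by
    have h3 : |psiErr y1 Q b| * h ≤ |HH y1 Q b| + |HH y2 Q b| +
        h * ∑ n ∈ Ioc ⌊y1⌋₊ ⌊y2⌋₊, |dev Q b n| := by
      rw [← abs_of_pos hpos, ← abs_mul, abs_of_pos hpos]
      have h4 : psiErr y1 Q b * h = HH y2 Q b - HH y1 Q b -
          ∑ n ∈ Ioc ⌊y1⌋₊ ⌊y2⌋₊, dev Q b n * (Real.log y2 - Real.log n) := by linarith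
      rw [h4]
      have h5 := abs_sub (HH y2 Q b - HH y1 Q b)
        (∑ n ∈ Ioc ⌊y1⌋₊ ⌊y2⌋₊, dev Q b n * (Real.log y2 - Real.log n))
      have h6 := abs_sub (HH y2 Q b) (HH y1 Q b)
      linarith
    rw [← le_div_iff₀ hpos] at h3
    refine h3.trans (le_of_eq ?_)
    field_simp
  have e4 : |psiErr y Q b - psiErr y1 Q b| ≤ ∑ n ∈ Ioc ⌊y1⌋₊ ⌊y2⌋₊, |dev Q b n| := by
    rw [psiErr_eq, psiErr_eq, split _ _ _ hf1, add_sub_cancel_left]
    refine (Finset.abs_sum_le_sum_abs _ _).trans ?_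
    exact Finset.sum_le_sum_of_subset_of_nonneg (Finset.Ioc_subset_Ioc le_rfl hf2)
      fun n _ _ => abs_nonneg _
  have e5 : |psiErr y Q b| ≤ |psiErr y1 Q b| + |psiErr y Q b - psiErr y1 Q b| := by
    have := abs_add_le (psiErr y1 Q b) (psiErr y Q b - psiErr y1 Q b)
    rwa [add_sub_cancel] at this
  linarith

lemma card_class (a c Q b : ℕ) (hQ : 0 < Q) (hac : a ≤ c) :
    (((Ioc a c).filter (fun n => n ≡ b [MOD Q])).card : ℝ) ≤ ((c : ℝ) - a) / Q + 1 := by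
  have h := Nat.Ioc_filter_modEq_card a c hQ b
  have h2 : (((Ioc a c).filter (fun n => n ≡ b [MOD Q])).card : ℚ) ≤ ((c : ℚ) - a) / Q + 1 := by
    have h3 : (((Ioc a c).filter (fun n => n ≡ b [MOD Q])).card : ℚ) =
        ((max (⌊((c : ℚ) - b) / (Q : ℚ)⌋ - ⌊((a : ℚ) - b) / (Q : ℚ)⌋) 0 : ℤ) : ℚ) := by
      rw [← h]; norm_cast
    rw [h3]
    push_cast
    have hQ' : (0 : ℚ) < Q := by exact_mod_cast hQ
    apply max_le
    · have h4 := Int.floor_le (((c : ℚ) - b) / (Q : ℚ))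
      have h5 := Int.lt_floor_add_one (((a : ℚ) - b) / (Q : ℚ))
      have h6 : ((c : ℚ) - b) / Q - ((a : ℚ) - b) / Q = ((c : ℚ) - a) / Q := by ring
      linarith
    · have h7 : (0 : ℚ) ≤ ((c : ℚ) - a) / Q := div_nonneg (by
        have : (a : ℚ) ≤ c := by exact_mod_cast hac
        linarith) hQ'.le
      linarith
  have h8 := (Rat.cast_le (K := ℝ)).2 h2
  push_cast at h8
  exact h8

lemma abs_dev_le (Q b n : ℕ) : |dev Q b n| ≤
    vonMangoldt n * ((if n ≡ b [MOD Q] then 1 else 0) + 1 / (Nat.totient Q : ℝ)) := by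
  unfold dev
  rw [abs_mul, abs_of_nonneg ArithmeticFunction.vonMangoldt_nonneg]
  apply mul_le_mul_of_nonneg_left _ ArithmeticFunction.vonMangoldt_nonneg
  have h : (0 : ℝ) ≤ 1 / (Nat.totient Q : ℝ) := by positivity
  split_ifs
  · rw [abs_le]; constructor <;> linarith
  · rw [abs_le]; constructor <;> linarith

/-- short sums of the coefficients -/
lemma inc_le (Q b : ℕ) (hQ : 0 < Q) {y1 y2 : ℝ} (h0 : 0 < y1) (h12 : y1 ≤ y2) (h1 : 1 ≤ y2) :
    ∑ n ∈ Ioc ⌊y1⌋₊ ⌊y2⌋₊, |dev Q b n| ≤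
      Real.log y2 * ((y2 - y1 + 1) / Q + 1 + (y2 - y1 + 1) / (Nat.totient Q : ℝ)) := by
  have hl : 0 ≤ Real.log y2 := Real.log_nonneg h1
  have hf12 : ⌊y1⌋₊ ≤ ⌊y2⌋₊ := Nat.floor_le_floor h12
  have hd : ((⌊y2⌋₊ : ℝ)) - ⌊y1⌋₊ ≤ y2 - y1 + 1 := by
    have h3 := Nat.floor_le (h0.trans_le h12).le
    have h4 := Nat.lt_floor_add_one y1
    linarith
  have hQ' : (0 : ℝ) < Q := by exact_mod_cast hQ
  have hφ : (0 : ℝ) < Nat.totient Q := by exact_mod_cast Nat.totient_pos.2 hQ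
  calc ∑ n ∈ Ioc ⌊y1⌋₊ ⌊y2⌋₊, |dev Q b n|
      ≤ ∑ n ∈ Ioc ⌊y1⌋₊ ⌊y2⌋₊, Real.log y2 * ((if n ≡ b [MOD Q] then 1 else 0) + 1 / (Nat.totient Q : ℝ)) := by
        refine Finset.sum_le_sum fun n hn => (abs_dev_le Q b n).trans ?_
        rw [mem_Ioc] at hn
        have hn1 : (1 : ℝ) ≤ n := by exact_mod_cast (by omega : 1 ≤ n)
        have hn2 : (n : ℝ) ≤ y2 := (Nat.le_floor_iff (h0.trans_le h12).le).1 hn.2
        apply mul_le_mul_of_nonneg_right
        · exact ArithmeticFunction.vonMangoldt_le_log.trans (Real.log_le_log (by linarith) hn2)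
        · positivity
    _ = Real.log y2 * ((((Ioc ⌊y1⌋₊ ⌊y2⌋₊).filter (fun n => n ≡ b [MOD Q])).card : ℝ) +
          ((⌊y2⌋₊ : ℝ) - ⌊y1⌋₊) * (1 / (Nat.totient Q : ℝ))) := by
        rw [← Finset.mul_sum, Finset.sum_add_distrib, Finset.sum_boole, Finset.sum_const, nsmul_eq_mul,
          Nat.card_Ioc, Nat.cast_sub hf12]
    _ ≤ _ := by
        apply mul_le_mul_of_nonneg_left _ hl
        have h5 := card_class ⌊y1⌋₊ ⌊y2⌋₊ Q b hQ hf12
        have h6 : ((⌊y2⌋₊ : ℝ) - ⌊y1⌋₊) / Q ≤ (y2 - y1 + 1) / Q := div_le_div_of_nonneg_right hd hQ'.le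
        have h7 : ((⌊y2⌋₊ : ℝ) - ⌊y1⌋₊) * (1 / (Nat.totient Q : ℝ)) ≤ (y2 - y1 + 1) / (Nat.totient Q : ℝ) := by
          rw [mul_one_div]
          exact div_le_div_of_nonneg_right hd hφ.le
        linarith

/-- **Sharp cut-offs from the weight `Phi`.** -/
theorem psiErr_bound {X h : ℝ} (hX : 1 ≤ X) (hh : 0 < h) (M J : ℕ) (hM : Real.log X ≤ M * h)
    (hJ : Real.log X ≤ (J : ℝ) / 2) (Q b : ℕ) (hQ : 0 < Q) (y : ℝ) (hy : y ≤ X) :
    |psiErr y Q b| ≤ 2 / h * ∑ k ∈ range (M + 2), ∑ j ∈ range J, ((j : ℝ) + 1) *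
        |EPhi (X * Real.exp (-(k * h)) * Real.exp (-1 - j / 2)) Q b| +
      2 * (Real.log X * ((X * h + 1) / Q + 1 + (X * h + 1) / (Nat.totient Q : ℝ))) := by
  have hX0 : 0 < X := by linarith
  have hlX : 0 ≤ Real.log X := Real.log_nonneg hX
  have hnn : 0 ≤ 2 / h * ∑ k ∈ range (M + 2), ∑ j ∈ range J, ((j : ℝ) + 1) *
      |EPhi (X * Real.exp (-(k * h)) * Real.exp (-1 - j / 2)) Q b| := by
    apply mul_nonneg (by positivity)
    exact Finset.sum_nonneg fun k _ => Finset.sum_nonneg fun j _ => by positivity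
  have hnn2 : 0 ≤ 2 * (Real.log X * ((X * h + 1) / Q + 1 + (X * h + 1) / (Nat.totient Q : ℝ))) := by
    positivity
  rcases lt_or_ge y 1 with hy1 | hy1
  · have : psiErr y Q b = 0 := by
      unfold psiErr
      rw [Nat.floor_eq_zero.2 hy1]
      simp
    rw [this, abs_zero]
    exact add_nonneg hnn hnn2
  have hy0 : 0 < y := by linarith
  set k := ⌊(Real.log X - Real.log y) / h⌋₊ with hk
  have hly : 0 ≤ Real.log y := Real.log_nonneg hy1
  have hlyX : Real.log y ≤ Real.log X := Real.log_le_log hy0 hy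
  have hk1 : (k : ℝ) * h ≤ Real.log X - Real.log y := by
    have := Nat.floor_le (div_nonneg (by linarith : 0 ≤ Real.log X - Real.log y) hh.le)
    rwa [← hk, le_div_iff₀ hh] at this
  have hk2 : Real.log X - Real.log y < ((k : ℝ) + 1) * h := by
    have := Nat.lt_floor_add_one ((Real.log X - Real.log y) / h)
    rwa [← hk, div_lt_iff₀ hh] at this
  have hkM : k ≤ M := by
    have : (k : ℝ) ≤ M := by
      by_contra hc
      push Not at hc
      nlinarith
    exact_mod_cast this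
  set Yk : ℕ → ℝ := fun k => X * Real.exp (-((k : ℝ) * h)) with hYk
  have hYpos : ∀ k, 0 < Yk k := fun k => by simp only [hYk]; positivity
  have hYlog : ∀ k, Real.log (Yk k) = Real.log X - k * h := fun k => by
    simp only [hYk]
    rw [Real.log_mul hX0.ne' (Real.exp_ne_zero _), Real.log_exp]; ring
  have hYX : ∀ k, Yk k ≤ X := fun k => by
    simp only [hYk]
    have : Real.exp (-((k : ℝ) * h)) ≤ 1 := Real.exp_le_one_iff.2 (by
      have : (0 : ℝ) ≤ (k : ℝ) * h := by positivity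
      linarith)
    nlinarith
  have hA : y ≤ Yk k := by
    rw [← Real.log_le_log_iff hy0 (hYpos k), hYlog]
    linarith
  have hB : Yk (k + 1) ≤ y := by
    rw [← Real.log_le_log_iff (hYpos _) hy0, hYlog]
    push_cast
    linarith
  have hC : Yk (k + 1) < Yk k := by
    rw [← Real.log_lt_log_iff (hYpos _) (hYpos _), hYlog, hYlog]
    push_cast
    nlinarith
  have hD : Real.log (Yk k) - Real.log (Yk (k + 1)) = h := by
    rw [hYlog, hYlog]; push_cast; ring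
  have hE : Yk k - Yk (k + 1) ≤ X * h := by
    have h1 : Yk (k + 1) = Yk k * Real.exp (-h) := by
      simp only [hYk]
      rw [mul_assoc, ← Real.exp_add]
      congr 2
      push_cast; ring
    rw [h1]
    have h2 : 1 - h ≤ Real.exp (-h) := by
      have := Real.add_one_le_exp (-h)
      linarith
    have h3 := hYX k
    have h4 := hYpos k
    nlinarith
  have main := psiErr_le_HH (hYpos (k + 1)) hC hB hA Q b
  rw [hD] at main
  have hHH : ∀ k, |HH (Yk k) Q b| ≤ ∑ j ∈ range J, ((j : ℝ) + 1) *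
      |EPhi (X * Real.exp (-(k * h)) * Real.exp (-1 - j / 2)) Q b| := by
    intro k
    rw [HH_eq (hYpos k) J (by rw [hYlog]; have : (0 : ℝ) ≤ (k : ℝ) * h := by positivity
                              linarith) Q b]
    refine (Finset.abs_sum_le_sum_abs _ _).trans (Finset.sum_le_sum fun j _ => ?_)
    rw [abs_mul, abs_of_nonneg (by positivity : (0 : ℝ) ≤ (j : ℝ) + 1)]
  set F : ℕ → ℝ := fun k => ∑ j ∈ range J, ((j : ℝ) + 1) *
      |EPhi (X * Real.exp (-(k * h)) * Real.exp (-1 - j / 2)) Q b| with hF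
  have hF0 : ∀ k, 0 ≤ F k := fun k => Finset.sum_nonneg fun j _ => by positivity
  have hFs : F (k + 1) + F k ≤ ∑ k ∈ range (M + 2), F k := by
    have h1 : ({k + 1, k} : Finset ℕ) ⊆ range (M + 2) := by
      intro i hi
      rw [Finset.mem_insert, Finset.mem_singleton] at hi
      rw [Finset.mem_range]
      omega
    calc F (k + 1) + F k = ∑ i ∈ ({k + 1, k} : Finset ℕ), F i := by
          rw [Finset.sum_pair (by omega)]
      _ ≤ _ := Finset.sum_le_sum_of_subset_of_nonneg h1 fun i _ _ => hF0 i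
  have hS0 : 0 ≤ ∑ k ∈ range (M + 2), F k := Finset.sum_nonneg fun k _ => hF0 k
  have p1 : (|HH (Yk (k + 1)) Q b| + |HH (Yk k) Q b|) / h ≤ 2 / h * ∑ k ∈ range (M + 2), F k := by
    rw [div_mul_eq_mul_div]
    apply div_le_div_of_nonneg_right _ hh.le
    have h1 := hHH (k + 1)
    have h2 := hHH k
    linarith
  have p2 : ∑ n ∈ Ioc ⌊Yk (k + 1)⌋₊ ⌊Yk k⌋₊, |dev Q b n| ≤
      Real.log X * ((X * h + 1) / Q + 1 + (X * h + 1) / (Nat.totient Q : ℝ)) := by
    refine (inc_le Q b hQ (hYpos (k + 1)) hC.le (hy1.trans hA)).trans ?_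
    have hQ' : (0 : ℝ) < Q := by exact_mod_cast hQ
    have hφ : (0 : ℝ) < Nat.totient Q := by exact_mod_cast Nat.totient_pos.2 hQ
    apply mul_le_mul _ _ _ hlX
    · exact Real.log_le_log (hYpos k) (hYX k)
    · have h6 : (Yk k - Yk (k + 1) + 1) / Q ≤ (X * h + 1) / Q :=
        div_le_div_of_nonneg_right (by linarith) hQ'.le
      have h7 : (Yk k - Yk (k + 1) + 1) / (Nat.totient Q : ℝ) ≤ (X * h + 1) / (Nat.totient Q : ℝ) :=
        div_le_div_of_nonneg_right (by linarith) hφ.le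
      linarith
    · have h8 : 0 ≤ Yk k - Yk (k + 1) + 1 := by linarith
      positivity
  linarith

end Pool.Agent.Q66.LD
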