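import Mathlib
import Pool.Agent.Y826.Z.Defs

/-! The grouping condition `GoodT` is open, and it bounds the sum of the exponents. -/

set_option autoImplicit false

open Finset

namespace Pool.Agent.Q66.LD

open Pool.Agent.Y826.Z (GoodT)

lemma goodT_open {K : ℕ} {δ : ℝ} (hδ : 0 < δ) {t : Fin K → ℝ} (ht : ∀ j, 0 ≤ t j) (hG : GoodT δ t) :
    ∃ ρ : ℝ, 0 < ρ ∧ ∃ δ' : ℝ, 0 < δ' ∧ GoodT δ' (fun j => (1 + ρ) * t j) := by
  set T := ∑ j, t j with hT
  have hT0 : 0 ≤ T := Finset.sum_nonneg fun j _ => ht j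
  set ρ := δ / (200 * (T + 1)) with hρ
  have hρ0 : 0 < ρ := by positivity
  have hρT : ρ * (200 * (T + 1)) = δ := by rw [hρ]; field_simp
  set κ := ρ * T with hκ
  have hκ0 : 0 ≤ κ := by positivity
  have hκδ : 200 * κ ≤ δ := by nlinarith
  refine ⟨ρ, hρ0, δ / 2, by positivity, ?_⟩
  intro x hx hs ν hν0 hν1
  set u : Fin K → ℝ := fun j => min (x j) (t j) with hu
  have hux : ∀ j, u j ≤ x j := fun j => min_le_left _ _
  have hut : ∀ j, u j ≤ t j := fun j => min_le_right _ _
  have hul : ∀ j, -δ ≤ u j := fun j => le_min (by linarith [(hx j).1]) (by linarith [ht j])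
  have hxu : ∀ j, x j ≤ u j + ρ * t j := fun j => by
    simp only [hu]
    rcases min_choice (x j) (t j) with h | h
    · rw [h]; have := mul_nonneg hρ0.le (ht j); linarith
    · rw [h]; have := (hx j).2; linarith
  have hsum : ∑ j, x j ≤ ∑ j, u j + κ := by
    calc ∑ j, x j ≤ ∑ j, (u j + ρ * t j) := Finset.sum_le_sum fun j _ => hxu j
      _ = _ := by rw [Finset.sum_add_distrib, ← Finset.mul_sum]
  obtain ⟨g, hg⟩ := hG u (fun j => ⟨hul j, hut j⟩) (by linarith) ν (by linarith) (by linarith)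
  refine ⟨g, fun y hy η hη => ?_⟩
  obtain ⟨h1, h2, h3, h4, h5⟩ := hg (fun i => ∑ j ∈ univ.filter (fun j => g j = i), u j) (fun i => rfl) _ rfl
  have hle : ∀ i, ∑ j ∈ univ.filter (fun j => g j = i), u j ≤ y i := fun i => by
    rw [hy i]; exact Finset.sum_le_sum fun j _ => hux j
  have hge : ∀ i, y i ≤ ∑ j ∈ univ.filter (fun j => g j = i), u j + κ := fun i => by
    rw [hy i]
    calc ∑ j ∈ univ.filter (fun j => g j = i), x j
        ≤ ∑ j ∈ univ.filter (fun j => g j = i), (u j + ρ * t j) := Finset.sum_le_sum fun j _ => hxu j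
      _ = ∑ j ∈ univ.filter (fun j => g j = i), u j + ρ * ∑ j ∈ univ.filter (fun j => g j = i), t j := by
          rw [Finset.sum_add_distrib, ← Finset.mul_sum]
      _ ≤ _ := by
          have : ∑ j ∈ univ.filter (fun j => g j = i), t j ≤ T :=
            Finset.sum_le_sum_of_subset_of_nonneg (filter_subset _ _) fun j _ _ => ht j
          have := mul_le_mul_of_nonneg_left this hρ0.le
          linarith
  have a0 := hge 0
  have a1 := hge 1
  have a2 := hge 2
  have a3 := hge 3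
  have a4 := hge 4
  have b1 := hle 1
  have b3 := hle 3
  set η0 := max 0 ((∑ j ∈ univ.filter (fun j => g j = 0), u j) +
      (∑ j ∈ univ.filter (fun j => g j = 1), u j) + 2 * (∑ j ∈ univ.filter (fun j => g j = 2), u j) +
      2 * (∑ j ∈ univ.filter (fun j => g j = 3), u j) +
      2 * (∑ j ∈ univ.filter (fun j => g j = 4), u j) - (1 - ν)) with hη0
  have hηle : η ≤ η0 + 8 * κ := by
    rw [hη]
    apply max_le
    · have : 0 ≤ η0 := le_max_left _ _
      linarith
    · have : (∑ j ∈ univ.filter (fun j => g j = 0), u j) +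
        (∑ j ∈ univ.filter (fun j => g j = 1), u j) + 2 * (∑ j ∈ univ.filter (fun j => g j = 2), u j) +
        2 * (∑ j ∈ univ.filter (fun j => g j = 3), u j) +
        2 * (∑ j ∈ univ.filter (fun j => g j = 4), u j) - (1 - ν) ≤ η0 := le_max_right _ _
      linarith
  refine ⟨by linarith, by linarith, by linarith, by linarith, by linarith⟩

lemma goodT_sum {K : ℕ} {δ : ℝ} (hδ : 0 < δ) {t : Fin K → ℝ} (ht : ∀ j, 0 ≤ t j) (hG : GoodT δ t) :
    ∑ j, t j ≤ 27 / 50 := by
  by_contra hc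
  push Not at hc
  obtain ⟨g, hg⟩ := hG t (fun j => ⟨by linarith [ht j], le_rfl⟩) (by linarith) (1 / 3) (by linarith)
    (by linarith)
  obtain ⟨h1, h2, h3, h4, h5⟩ := hg (fun i => ∑ j ∈ univ.filter (fun j => g j = i), t j) (fun i => rfl) _ rfl
  have hall : ∑ i : Fin 5, (∑ j ∈ univ.filter (fun j => g j = i), t j) = ∑ j, t j :=
    Finset.sum_fiberwise _ _ _
  rw [Fin.sum_univ_five] at hall
  have hη : (∑ j ∈ univ.filter (fun j => g j = 0), t j) +
      (∑ j ∈ univ.filter (fun j => g j = 1), t j) + 2 * (∑ j ∈ univ.filter (fun j => g j = 2), t j) +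
      2 * (∑ j ∈ univ.filter (fun j => g j = 3), t j) +
      2 * (∑ j ∈ univ.filter (fun j => g j = 4), t j) - (1 - 1 / 3) ≤
      max 0 ((∑ j ∈ univ.filter (fun j => g j = 0), t j) +
      (∑ j ∈ univ.filter (fun j => g j = 1), t j) + 2 * (∑ j ∈ univ.filter (fun j => g j = 2), t j) +
      2 * (∑ j ∈ univ.filter (fun j => g j = 3), t j) +
      2 * (∑ j ∈ univ.filter (fun j => g j = 4), t j) - (1 - 1 / 3)) := le_max_right _ _
  linarith

end Pool.Agent.Q66.LD
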