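import Mathlib
import Pool.Agent.Y826.ZG.Main
import Pool.Agent.Q66.LD.GT
import Pool.Agent.Q66.LD.Open
import Pool.Agent.Q66.LD.Hat

/-! Primes in the residue classes given by several linear forms, to factorable moduli beyond the level `1/2`,
with sharp cut-offs and arbitrary heights inside. -/

set_option autoImplicit false

open Finset Filter

namespace Pool.Agent.Q66.LD

open Pool.Agent.Y826.Z (Pr tau GoodT)
open Pool.Agent.Y826.ZL (Cd)
open Pool.Agent.Y826.ZG (rd Hyp Cls s_zz)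
open Pool.Agent.Y826.ZG.Y950 (fiber_le one_div_totient_le tau_nonneg one_le_tau)
open Pool.Agent.H378R2 (EPhi Phi)

open Classical in
/-- the tuples of the box with exponents `t` -/
noncomputable def TT {K : ℕ} (W : ℕ) (t : Fin K → ℝ) (X : ℝ) : Finset (Fin K → ℕ) :=
  (Fintype.piFinset (fun j => Icc 1 ⌊X ^ (t j)⌋₊)).filter (fun q => Squarefree (rd W * Pr q))

lemma mem_TT {K : ℕ} {W : ℕ} {t : Fin K → ℝ} {X : ℝ} {q : Fin K → ℕ} :
    q ∈ TT W t X ↔ (∀ j, 1 ≤ q j ∧ q j ≤ ⌊X ^ (t j)⌋₊) ∧ Squarefree (rd W * Pr q) := by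
  classical
  unfold TT
  rw [mem_filter, Fintype.mem_piFinset]
  simp only [mem_Icc]

lemma Pr_le {K : ℕ} {W : ℕ} {t : Fin K → ℝ} {X : ℝ} (hX : 0 < X) {q : Fin K → ℕ} (hq : q ∈ TT W t X) :
    (Pr q : ℝ) ≤ X ^ (∑ j, t j) := by
  rw [Real.rpow_sum_of_pos hX]
  unfold Pr
  push_cast
  apply Finset.prod_le_prod
  · intro j _; positivity
  · intro j _
    exact (Nat.le_floor_iff (by positivity)).1 ((mem_TT.1 hq).1 j).2

lemma Pr_ne {K : ℕ} {W : ℕ} {t : Fin K → ℝ} {X : ℝ} {q : Fin K → ℕ} (hq : q ∈ TT W t X) : Pr q ≠ 0 :=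
  ((mem_TT.1 hq).2.of_mul_right).ne_zero

lemma sum_tau_div {K : ℕ} (W : ℕ) (t : Fin K → ℝ) (hs : ∑ j, t j ≤ 27 / 50) (C : ℕ) {X : ℝ} (hX : 1 ≤ X) :
    ∑ q ∈ TT W t X, tau (Pr q) ^ C / (Pr q : ℝ) ≤ (1 + Real.log X) ^ (2 ^ (K + C)) := by
  have hX0 : 0 < X := by linarith
  have h2 : ∑ q ∈ TT W t X, (tau (Pr q) ^ C / (Pr q : ℝ)) ≤
      ∑ m ∈ Icc 1 ⌊X⌋₊, tau m ^ K * (tau m ^ C / (m : ℝ)) := by
    apply fiber_le (TT W t X) (Icc 1 ⌊X⌋₊) (fun m hm => by rw [mem_Icc] at hm; omega) _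
      (fun m => tau m ^ C / (m : ℝ))
      (fun m => div_nonneg (pow_nonneg (tau_nonneg _) _) (Nat.cast_nonneg _))
    intro q hq
    rw [mem_Icc]
    refine ⟨Nat.one_le_iff_ne_zero.2 (Pr_ne hq), Nat.le_floor ((Pr_le hX0 hq).trans ?_)⟩
    calc X ^ (∑ j, t j) ≤ X ^ (1 : ℝ) := Real.rpow_le_rpow_of_exponent_le hX (by linarith)
      _ = X := Real.rpow_one X
  refine h2.trans ?_
  calc ∑ m ∈ Icc 1 ⌊X⌋₊, tau m ^ K * (tau m ^ C / (m : ℝ))
      = ∑ m ∈ Icc 1 ⌊X⌋₊, tau m ^ (K + C) / (m : ℝ) := by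
        refine Finset.sum_congr rfl fun m _ => ?_
        rw [mul_div_assoc', ← pow_add]
    _ ≤ (1 + Real.log (⌊X⌋₊ : ℝ)) ^ (2 ^ (K + C)) := W37.RK.sum_card_pow_div (K + C) ⌊X⌋₊
    _ ≤ (1 + Real.log X) ^ (2 ^ (K + C)) := by
        have h5 : (1 : ℝ) ≤ (⌊X⌋₊ : ℝ) := by
          exact_mod_cast Nat.le_floor (by push_cast; linarith)
        apply pow_le_pow_left₀
        · have := Real.log_nonneg h5
          linarith
        · have := Real.log_le_log (by linarith) (Nat.floor_le hX0.le)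
          linarith

lemma sum_tau {K : ℕ} (W : ℕ) (t : Fin K → ℝ) (hs : ∑ j, t j ≤ 27 / 50) (C : ℕ) {X : ℝ} (hX : 1 ≤ X) :
    ∑ q ∈ TT W t X, tau (Pr q) ^ C ≤ X ^ (27 / 50 : ℝ) * (1 + Real.log X) ^ (2 ^ (K + C)) := by
  have hX0 : 0 < X := by linarith
  refine le_trans ?_ (mul_le_mul_of_nonneg_left (sum_tau_div W t hs C hX) (by positivity))
  rw [Finset.mul_sum]
  refine Finset.sum_le_sum fun q hq => ?_
  have h1 : (0 : ℝ) < Pr q := by exact_mod_cast Nat.pos_of_ne_zero (Pr_ne hq)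
  have h2 : (Pr q : ℝ) ≤ X ^ (27 / 50 : ℝ) :=
    (Pr_le hX0 hq).trans (Real.rpow_le_rpow_of_exponent_le hX hs)
  rw [mul_div_assoc', le_div_iff₀ h1, mul_comm]
  exact mul_le_mul_of_nonneg_right h2 (pow_nonneg (tau_nonneg _) _)

/-- powers of the logarithm are small -/
lemma log_small (N : ℕ) (c κ : ℝ) (hc : 0 < c) (hκ : 0 < κ) :
    ∀ᶠ X : ℝ in atTop, c * Real.log X ^ N ≤ X ^ κ := by
  have h := isLittleO_log_rpow_rpow_atTop (N : ℝ) hκ
  have h2 := h.bound (show (0 : ℝ) < 1 / c by positivity)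
  filter_upwards [h2, eventually_ge_atTop 1] with X hX hX1
  rw [Real.rpow_natCast, Real.norm_of_nonneg (pow_nonneg (Real.log_nonneg hX1) _),
    Real.norm_of_nonneg (by positivity)] at hX
  rw [one_div, ← div_eq_inv_mul, le_div_iff₀ hc] at hX
  linarith

/-- the general bound for small scales -/
lemma small_scale {Y Z : ℝ} (hY : 0 < Y) (hYZ : Y ≤ Z) (hZ : 1 ≤ Z) (Q b : ℕ) (hQ : 0 < Q) :
    |EPhi Y Q b| ≤ Real.log (3 * Z) * ((3 * Z + 1) / Q + 1 + (3 * Z + 1) / (Nat.totient Q : ℝ)) := by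
  rw [EPhi_eq hY Q b (N := ⌊3 * Z⌋₊) (Nat.floor_le_floor (by linarith))]
  refine (Finset.abs_sum_le_sum_abs _ _).trans ?_
  have h1 : ∑ n ∈ Icc 1 ⌊3 * Z⌋₊, |Phi (n / Y) * dev Q b n| ≤
      ∑ n ∈ Ioc ⌊(1 / 2 : ℝ)⌋₊ ⌊3 * Z⌋₊, |dev Q b n| := by
    have h0 : ⌊(1 / 2 : ℝ)⌋₊ = 0 := Nat.floor_eq_zero.2 (by norm_num)
    have h2 : Ioc ⌊(1 / 2 : ℝ)⌋₊ ⌊3 * Z⌋₊ = Icc 1 ⌊3 * Z⌋₊ := by
      rw [h0]; ext n; simp only [mem_Ioc, mem_Icc]; omega
    rw [h2]
    refine Finset.sum_le_sum fun n _ => ?_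
    rw [abs_mul, abs_of_nonneg (Pool.Agent.Y826.ZG.Y950.Phi_nonneg _)]
    calc Phi (n / Y) * |dev Q b n| ≤ 1 * |dev Q b n| :=
          mul_le_mul_of_nonneg_right (Pool.Agent.Y826.ZG.Y950.Phi_le_one _) (abs_nonneg _)
      _ = _ := one_mul _
  refine h1.trans ((inc_le Q b hQ (by norm_num : (0 : ℝ) < 1 / 2) (by linarith) (by linarith)).trans ?_)
  have hQ' : (0 : ℝ) < Q := by exact_mod_cast hQ
  have hφ : (0 : ℝ) < Nat.totient Q := by exact_mod_cast Nat.totient_pos.2 hQ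
  apply mul_le_mul_of_nonneg_left _ (Real.log_nonneg (by linarith))
  have h6 : (3 * Z - 1 / 2 + 1) / Q ≤ (3 * Z + 1) / Q := div_le_div_of_nonneg_right (by linarith) hQ'.le
  have h7 : (3 * Z - 1 / 2 + 1) / (Nat.totient Q : ℝ) ≤ (3 * Z + 1) / (Nat.totient Q : ℝ) :=
    div_le_div_of_nonneg_right (by linarith) hφ.le
  linarith

/-- sums over the moduli of the trivial bounds -/
lemma triv_sum {K : ℕ} {W : ℕ} (hW : 0 < W) (t : Fin K → ℝ) (hs : ∑ j, t j ≤ 27 / 50) (C : ℕ) {X : ℝ}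
    (hX : 1 ≤ X) {U : ℝ} (hU : 0 ≤ U) :
    ∑ q ∈ TT W t X, tau (Pr q) ^ C * (U / ((W * Pr q : ℕ) : ℝ) + 1 + U / (Nat.totient (W * Pr q) : ℝ)) ≤
      (2 * U + X ^ (27 / 50 : ℝ)) * (1 + Real.log X) ^ (2 ^ (K + C + 1)) := by
  have hlog : 0 ≤ Real.log X := Real.log_nonneg hX
  have h1 := sum_tau_div W t hs (C + 1) hX
  have h2 := sum_tau W t hs C hX
  have h3 : (1 + Real.log X) ^ (2 ^ (K + C)) ≤ (1 + Real.log X) ^ (2 ^ (K + C + 1)) :=
    pow_le_pow_right₀ (by linarith) (Nat.pow_le_pow_right (by norm_num) (by omega))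
  have h4 : ∑ q ∈ TT W t X, tau (Pr q) ^ C * (U / ((W * Pr q : ℕ) : ℝ) + 1 + U / (Nat.totient (W * Pr q) : ℝ)) ≤
      2 * U * ∑ q ∈ TT W t X, tau (Pr q) ^ (C + 1) / (Pr q : ℝ) + ∑ q ∈ TT W t X, tau (Pr q) ^ C := by
    rw [Finset.mul_sum, ← Finset.sum_add_distrib]
    refine Finset.sum_le_sum fun q hq => ?_
    have hq0 := Pr_ne hq
    have hp : (0 : ℝ) < Pr q := by exact_mod_cast Nat.pos_of_ne_zero hq0
    have ht := one_div_totient_le hW (mem_TT.1 hq).2
    have ht1 := one_le_tau hq0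
    have htn : 0 ≤ tau (Pr q) ^ C := pow_nonneg (tau_nonneg _) _
    have hφ : (0 : ℝ) < Nat.totient (W * Pr q) := by
      exact_mod_cast Nat.totient_pos.2 (Nat.mul_pos hW (Nat.pos_of_ne_zero hq0))
    have e1 : U / ((W * Pr q : ℕ) : ℝ) ≤ U * (tau (Pr q) / Pr q) := by
      rw [div_eq_mul_one_div]
      apply mul_le_mul_of_nonneg_left _ hU
      push_cast
      have hW' : (1 : ℝ) ≤ W := by exact_mod_cast hW
      calc 1 / ((W : ℝ) * Pr q) ≤ 1 / Pr q := by
            apply one_div_le_one_div_of_le hp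
            nlinarith
        _ ≤ tau (Pr q) / Pr q := div_le_div_of_nonneg_right ht1 hp.le
    have e2 : U / (Nat.totient (W * Pr q) : ℝ) ≤ U * (tau (Pr q) / Pr q) := by
      rw [div_eq_mul_one_div]
      exact mul_le_mul_of_nonneg_left ht hU
    calc tau (Pr q) ^ C * (U / ((W * Pr q : ℕ) : ℝ) + 1 + U / (Nat.totient (W * Pr q) : ℝ))
        ≤ tau (Pr q) ^ C * (2 * (U * (tau (Pr q) / Pr q)) + 1) :=
          mul_le_mul_of_nonneg_left (by linarith) htn
      _ = 2 * U * (tau (Pr q) ^ (C + 1) / (Pr q : ℝ)) + tau (Pr q) ^ C := by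
          rw [pow_succ]; ring
  rw [add_mul]
  refine h4.trans (add_le_add ?_ ?_)
  · exact mul_le_mul_of_nonneg_left h1 (by positivity)
  · exact h2.trans (mul_le_mul_of_nonneg_left h3 (by positivity))

/-- **The bound with the weight `Phi` at all scales at the same time.** -/
theorem uniform {K : ℕ} {h : Fin K → ℤ × ℤ} {W b : ℕ} (hyp : Hyp h W b) {t : Fin K → ℝ}
    (ht : ∀ j, 0 ≤ t j) (hG : ∃ δ : ℝ, 0 < δ ∧ GoodT δ t) {bq : (Fin K → ℕ) → ℕ} (hbq : Cls h W b bq)
    (A C : ℕ) :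
    ∀ᶠ X : ℝ in atTop, ∀ Y : ℝ, 0 < Y → Y ≤ X →
      ∑ q ∈ TT W t X, tau (Pr q) ^ C * |EPhi Y (W * Pr q) (bq q)| ≤ X / (Real.log X) ^ A := by
  obtain ⟨δ, hδ, hG⟩ := hG
  have hs := goodT_sum hδ ht hG
  obtain ⟨ρ, hρ, δ', hδ', hG'⟩ := goodT_open hδ ht hG
  have ht' : ∀ j, 0 ≤ (1 + ρ) * t j := fun j => mul_nonneg (by linarith) (ht j)
  have hs' := goodT_sum hδ' ht' hG'
  have hzz := s_zz K h W b hyp (fun j => (1 + ρ) * t j) ht' hs' ⟨δ', hδ', hG'⟩ bq hbq (A + 1) C
  set σ : ℝ := 1 / (1 + ρ) with hσ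
  have hσ0 : 0 < σ := by positivity
  have hσ1 : σ < 1 := by rw [hσ, div_lt_one (by linarith)]; linarith
  have hZ : Tendsto (fun X : ℝ => X ^ σ) atTop atTop := tendsto_rpow_atTop hσ0
  obtain ⟨Y0, hY0⟩ := eventually_atTop.1 hzz
  set R := 2 ^ (K + C + 1) with hR
  set κ : ℝ := min (1 - σ) (23 / 50) with hκ
  have hκ0 : 0 < κ := lt_min (by linarith) (by norm_num)
  have hκ1 : κ ≤ 1 - σ := min_le_left _ _
  have hκ2 : κ ≤ 23 / 50 := min_le_right _ _
  filter_upwards [hZ.eventually_ge_atTop (max Y0 1), eventually_ge_atTop 3,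
    Real.tendsto_log_atTop.eventually_ge_atTop (max 1 ((1 + ρ) ^ (A + 1))),
    log_small (R + 1 + A) (18 * 2 ^ R) κ (by positivity) hκ0] with X hX1 hX3 hL hsm
  intro Y hY hYX
  have hX0 : 0 < X := by linarith
  have hL1 : 1 ≤ Real.log X := (le_max_left _ _).trans hL
  have hL2 : (1 + ρ) ^ (A + 1) ≤ Real.log X := (le_max_right _ _).trans hL
  rcases le_or_gt (X ^ σ) Y with hc | hc
  · -- large scales
    have hYY0 : Y0 ≤ Y := ((le_max_left _ _).trans hX1).trans hc
    have hsub : TT W t X ⊆ TT W (fun j => (1 + ρ) * t j) Y := by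
      intro q hq
      rw [mem_TT] at hq ⊢
      refine ⟨fun j => ⟨(hq.1 j).1, (hq.1 j).2.trans (Nat.floor_le_floor ?_)⟩, hq.2⟩
      have h1 : X ^ (t j) = (X ^ σ) ^ ((1 + ρ) * t j) := by
        rw [← Real.rpow_mul hX0.le]
        congr 1
        rw [hσ]; field_simp
      rw [h1]
      exact Real.rpow_le_rpow (by positivity) hc (ht' j)
    have h2 : ∑ q ∈ TT W (fun j => (1 + ρ) * t j) Y, tau (Pr q) ^ C * |EPhi Y (W * Pr q) (bq q)| ≤
        Y / (Real.log Y) ^ (A + 1) := by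
      have := hY0 Y hYY0
      unfold TT
      convert this
    refine (Finset.sum_le_sum_of_subset_of_nonneg hsub fun q _ _ =>
      mul_nonneg (pow_nonneg (tau_nonneg _) _) (abs_nonneg _)).trans (h2.trans ?_)
    have hlY : σ * Real.log X ≤ Real.log Y := by
      rw [← Real.log_rpow hX0]
      exact Real.log_le_log (by positivity) hc
    have hσL : 0 < σ * Real.log X := by positivity
    have h3 : (σ * Real.log X) ^ (A + 1) ≤ (Real.log Y) ^ (A + 1) := pow_le_pow_left₀ hσL.le hlY _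
    calc Y / (Real.log Y) ^ (A + 1) ≤ X / (σ * Real.log X) ^ (A + 1) := by
          apply div_le_div₀ hX0.le hYX (by positivity) h3
      _ ≤ X / (Real.log X) ^ A := by
          apply div_le_div_of_nonneg_left hX0.le (by positivity)
          rw [mul_pow, pow_succ (Real.log X)]
          have h4 : 1 ≤ σ ^ (A + 1) * Real.log X := by
            have h5 : σ ^ (A + 1) * (1 + ρ) ^ (A + 1) = 1 := by
              rw [← mul_pow, hσ, one_div, inv_mul_cancel₀ (by linarith), one_pow]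
            calc 1 = σ ^ (A + 1) * (1 + ρ) ^ (A + 1) := h5.symm
              _ ≤ _ := mul_le_mul_of_nonneg_left hL2 (by positivity)
          calc Real.log X ^ A = 1 * Real.log X ^ A := (one_mul _).symm
            _ ≤ (σ ^ (A + 1) * Real.log X) * Real.log X ^ A :=
                mul_le_mul_of_nonneg_right h4 (by positivity)
            _ = σ ^ (A + 1) * (Real.log X ^ A * Real.log X) := by ring
  · -- small scales
    have hZ1 : 1 ≤ X ^ σ := (le_max_right _ _).trans hX1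
    have h1 : ∑ q ∈ TT W t X, tau (Pr q) ^ C * |EPhi Y (W * Pr q) (bq q)| ≤
        Real.log (3 * X ^ σ) * ∑ q ∈ TT W t X, tau (Pr q) ^ C * ((3 * X ^ σ + 1) / ((W * Pr q : ℕ) : ℝ) + 1 +
          (3 * X ^ σ + 1) / (Nat.totient (W * Pr q) : ℝ)) := by
      rw [Finset.mul_sum]
      refine Finset.sum_le_sum fun q hq => ?_
      have hQ : 0 < W * Pr q := Nat.mul_pos hyp.wpos (Nat.pos_of_ne_zero (Pr_ne hq))
      calc tau (Pr q) ^ C * |EPhi Y (W * Pr q) (bq q)|
          ≤ tau (Pr q) ^ C * (Real.log (3 * X ^ σ) * ((3 * X ^ σ + 1) / ((W * Pr q : ℕ) : ℝ) + 1 +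
              (3 * X ^ σ + 1) / (Nat.totient (W * Pr q) : ℝ))) :=
            mul_le_mul_of_nonneg_left (small_scale hY hc.le hZ1 _ _ hQ) (pow_nonneg (tau_nonneg _) _)
        _ = _ := by ring
    have h2 := triv_sum hyp.wpos t hs C (by linarith : 1 ≤ X) (by positivity : 0 ≤ 3 * X ^ σ + 1)
    have hz1 : X ^ σ ≤ X ^ (1 - κ) := Real.rpow_le_rpow_of_exponent_le (by linarith) (by linarith)
    have hz2 : X ^ (27 / 50 : ℝ) ≤ X ^ (1 - κ) :=
      Real.rpow_le_rpow_of_exponent_le (by linarith) (by linarith)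
    have hl1 : Real.log (3 * X ^ σ) ≤ 2 * Real.log X := by
      rw [Real.log_mul (by norm_num) (by positivity), Real.log_rpow hX0]
      have h5 := Real.log_le_log (by norm_num) hX3
      nlinarith
    have hl0 : 0 ≤ Real.log (3 * X ^ σ) := Real.log_nonneg (by linarith)
    have hP : (1 + Real.log X) ^ R ≤ 2 ^ R * Real.log X ^ R := by
      rw [← mul_pow]
      exact pow_le_pow_left₀ (by linarith) (by linarith) _
    set E := X ^ (1 - κ) with hE
    have hE1 : 1 ≤ E := hZ1.trans hz1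
    calc ∑ q ∈ TT W t X, tau (Pr q) ^ C * |EPhi Y (W * Pr q) (bq q)|
        ≤ (2 * Real.log X) * ((2 * (3 * X ^ σ + 1) + X ^ (27 / 50 : ℝ)) * (1 + Real.log X) ^ R) :=
          h1.trans (mul_le_mul hl1 h2 (Finset.sum_nonneg fun q hq => by
            have : 0 ≤ tau (Pr q) ^ C := pow_nonneg (tau_nonneg _) _
            positivity) (by linarith))
      _ ≤ (2 * Real.log X) * ((9 * E) * (2 ^ R * Real.log X ^ R)) := by
          apply mul_le_mul_of_nonneg_left _ (by linarith)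
          apply mul_le_mul (by linarith) hP (by positivity) (by positivity)
      _ = (18 * 2 ^ R * Real.log X ^ (R + 1)) * E := by ring
      _ ≤ X / (Real.log X) ^ A := by
          rw [le_div_iff₀ (by positivity)]
          calc (18 * 2 ^ R * Real.log X ^ (R + 1)) * E * Real.log X ^ A
              = (18 * 2 ^ R * Real.log X ^ (R + 1 + A)) * E := by rw [pow_add (Real.log X) (R + 1) A]; ring
            _ ≤ X ^ κ * E := mul_le_mul_of_nonneg_right hsm (by positivity)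
            _ = X := by
                rw [hE, ← Real.rpow_add hX0]
                simp

/-- **The equidistribution theorem with sharp cut-offs and arbitrary heights.** -/
theorem sharp {K : ℕ} {h : Fin K → ℤ × ℤ} {W b : ℕ} (hyp : Hyp h W b) {t : Fin K → ℝ}
    (ht : ∀ j, 0 ≤ t j) (hG : ∃ δ : ℝ, 0 < δ ∧ GoodT δ t) {bq : (Fin K → ℕ) → ℕ} (hbq : Cls h W b bq)
    (A C : ℕ) :
    ∀ᶠ X : ℝ in atTop, ∀ y : (Fin K → ℕ) → ℝ, (∀ q, y q ≤ X) →
      ∑ q ∈ TT W t X, tau (Pr q) ^ C * |psiErr (y q) (W * Pr q) (bq q)| ≤ X / (Real.log X) ^ A := by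
  have hs : ∑ j, t j ≤ 27 / 50 := by
    obtain ⟨δ, hδ, hG⟩ := hG
    exact goodT_sum hδ ht hG
  set R := 2 ^ (K + C + 1) with hR
  set a := A + R + 2 with ha
  set B := 2 * a + 3 + A + 1 with hB
  have hu := uniform hyp ht hG hbq B C
  filter_upwards [hu, eventually_ge_atTop 3,
    Real.tendsto_log_atTop.eventually_ge_atTop (max 72 (2 ^ (R + 4))),
    log_small (R + 1 + A) (24 * 2 ^ R) (23 / 50) (by positivity) (by norm_num)] with X hU hX3 hL hsm
  intro y hy
  have hX0 : 0 < X := by linarith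
  set L := Real.log X with hLdef
  have hL1 : 72 ≤ L := (le_max_left _ _).trans hL
  have hL2 : (2 : ℝ) ^ (R + 4) ≤ L := (le_max_right _ _).trans hL
  have hL0 : 0 < L := by linarith
  set η : ℝ := 1 / L ^ a with hη
  have hη0 : 0 < η := by positivity
  set M := ⌈L ^ (a + 1)⌉₊ with hM
  set J := ⌈2 * L⌉₊ with hJ
  have hM1 : L ≤ M * η := by
    have h1 : L ^ (a + 1) ≤ M := Nat.le_ceil _
    calc L = L ^ (a + 1) * η := by rw [hη, pow_succ]; field_simp
      _ ≤ M * η := mul_le_mul_of_nonneg_right h1 hη0.le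
  have hJ1 : L ≤ (J : ℝ) / 2 := by
    have h1 : 2 * L ≤ J := Nat.le_ceil _
    linarith
  have hM2 : (M : ℝ) + 2 ≤ 2 * L ^ (a + 1) := by
    have h1 : (M : ℝ) < L ^ (a + 1) + 1 := Nat.ceil_lt_add_one (by positivity)
    have h2 : L ≤ L ^ (a + 1) := le_self_pow₀ (by linarith) (by omega)
    linarith
  have hJ2 : (J : ℝ) ≤ 3 * L := by
    have h1 : (J : ℝ) < 2 * L + 1 := Nat.ceil_lt_add_one (by positivity)
    linarith
  have key : ∀ q ∈ TT W t X, tau (Pr q) ^ C * |psiErr (y q) (W * Pr q) (bq q)| ≤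
      2 / η * ∑ k ∈ range (M + 2), ∑ j ∈ range J, ((j : ℝ) + 1) *
        (tau (Pr q) ^ C * |EPhi (X * Real.exp (-(k * η)) * Real.exp (-1 - j / 2)) (W * Pr q) (bq q)|) +
      2 * (L * (tau (Pr q) ^ C * ((X * η + 1) / ((W * Pr q : ℕ) : ℝ) + 1 +
        (X * η + 1) / (Nat.totient (W * Pr q) : ℝ)))) := by
    intro q hq
    have hQ : 0 < W * Pr q := Nat.mul_pos hyp.wpos (Nat.pos_of_ne_zero (Pr_ne hq))
    have h1 := psiErr_bound (by linarith : 1 ≤ X) hη0 M J hM1 hJ1 (W * Pr q) (bq q) hQ (y q) (hy q)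
    refine (mul_le_mul_of_nonneg_left h1 (pow_nonneg (tau_nonneg _) _)).trans (le_of_eq ?_)
    rw [mul_add]
    congr 1
    · rw [mul_left_comm]
      congr 1
      rw [Finset.mul_sum]
      refine Finset.sum_congr rfl fun k _ => ?_
      rw [Finset.mul_sum]
      refine Finset.sum_congr rfl fun j _ => ?_
      ring
    · ring
  refine (Finset.sum_le_sum key).trans ?_
  rw [Finset.sum_add_distrib, ← Finset.mul_sum, ← Finset.mul_sum, ← Finset.mul_sum]
  have p1 : ∑ q ∈ TT W t X, ∑ k ∈ range (M + 2), ∑ j ∈ range J, ((j : ℝ) + 1) *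
        (tau (Pr q) ^ C * |EPhi (X * Real.exp (-(k * η)) * Real.exp (-1 - j / 2)) (W * Pr q) (bq q)|) ≤
      (2 * L ^ (a + 1)) * ((3 * L) * ((3 * L) * (X / L ^ B))) := by
    rw [Finset.sum_comm]
    have hXB : 0 ≤ X / L ^ B := by positivity
    calc ∑ k ∈ range (M + 2), ∑ q ∈ TT W t X, ∑ j ∈ range J, ((j : ℝ) + 1) *
        (tau (Pr q) ^ C * |EPhi (X * Real.exp (-(k * η)) * Real.exp (-1 - j / 2)) (W * Pr q) (bq q)|)
        ≤ ∑ k ∈ range (M + 2), ((3 * L) * ((3 * L) * (X / L ^ B))) := by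
          refine Finset.sum_le_sum fun k _ => ?_
          rw [Finset.sum_comm]
          calc ∑ j ∈ range J, ∑ q ∈ TT W t X, ((j : ℝ) + 1) *
              (tau (Pr q) ^ C * |EPhi (X * Real.exp (-(k * η)) * Real.exp (-1 - j / 2)) (W * Pr q) (bq q)|)
              ≤ ∑ j ∈ range J, ((3 * L) * (X / L ^ B)) := by
                refine Finset.sum_le_sum fun j hj => ?_
                rw [← Finset.mul_sum]
                have hjJ : (j : ℝ) + 1 ≤ 3 * L := by
                  have : j + 1 ≤ J := Finset.mem_range.1 hj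
                  have h2 : ((j + 1 : ℕ) : ℝ) ≤ J := by exact_mod_cast this
                  push_cast at h2
                  linarith
                apply mul_le_mul hjJ _ (Finset.sum_nonneg fun q _ =>
                  mul_nonneg (pow_nonneg (tau_nonneg _) _) (abs_nonneg _)) (by positivity)
                apply hU _ (by positivity)
                have e1 : Real.exp (-((k : ℝ) * η)) ≤ 1 := Real.exp_le_one_iff.2 (by
                  have : (0 : ℝ) ≤ (k : ℝ) * η := by positivity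
                  linarith)
                have e2 : Real.exp (-1 - (j : ℝ) / 2) ≤ 1 := Real.exp_le_one_iff.2 (by
                  have : (0 : ℝ) ≤ (j : ℝ) / 2 := by positivity
                  linarith)
                calc X * Real.exp (-(k * η)) * Real.exp (-1 - j / 2) ≤ X * 1 * 1 := by
                      apply mul_le_mul (mul_le_mul_of_nonneg_left e1 hX0.le) e2 (by positivity) (by linarith)
                  _ = X := by ring
            _ = J * ((3 * L) * (X / L ^ B)) := by rw [Finset.sum_const, Finset.card_range, nsmul_eq_mul]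
            _ ≤ _ := mul_le_mul_of_nonneg_right hJ2 (by positivity)
      _ = ((M : ℝ) + 2) * ((3 * L) * ((3 * L) * (X / L ^ B))) := by
          rw [Finset.sum_const, Finset.card_range, nsmul_eq_mul]; push_cast; ring
      _ ≤ _ := mul_le_mul_of_nonneg_right hM2 (by positivity)
  have p1' : 2 / η * ((2 * L ^ (a + 1)) * ((3 * L) * ((3 * L) * (X / L ^ B)))) ≤ X / L ^ A / 2 := by
    have e : 2 / η * ((2 * L ^ (a + 1)) * ((3 * L) * ((3 * L) * (X / L ^ B)))) = 36 * (X / L ^ (A + 1)) := by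
      rw [hη, hB]
      have : L ^ (2 * a + 3 + A + 1) = L ^ a * L ^ (a + 1) * L * L * L ^ (A + 1) := by ring
      rw [this]
      field_simp
      norm_num
    rw [e, pow_succ, ← div_div]
    have h0 : 0 ≤ X / L ^ A := by positivity
    rw [← mul_div_assoc, div_le_div_iff₀ hL0 (by norm_num)]
    nlinarith
  have p2 := triv_sum hyp.wpos t hs C (by linarith : 1 ≤ X) (by positivity : 0 ≤ X * η + 1)
  have hP : (1 + L) ^ R ≤ 2 ^ R * L ^ R := by
    rw [← mul_pow]
    exact pow_le_pow_left₀ (by linarith) (by linarith) _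
  have hXE : 1 ≤ X ^ (27 / 50 : ℝ) := Real.one_le_rpow (by linarith) (by norm_num)
  have p2' : 2 * (L * ((2 * (X * η + 1) + X ^ (27 / 50 : ℝ)) * (1 + L) ^ R)) ≤ X / L ^ A / 2 := by
    calc 2 * (L * ((2 * (X * η + 1) + X ^ (27 / 50 : ℝ)) * (1 + L) ^ R))
        ≤ 2 * (L * ((2 * (X * η) + 3 * X ^ (27 / 50 : ℝ)) * (2 ^ R * L ^ R))) := by
          apply mul_le_mul_of_nonneg_left _ (by norm_num)
          apply mul_le_mul_of_nonneg_left _ hL0.le
          exact mul_le_mul (by linarith) hP (by positivity) (by positivity)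
      _ = 4 * 2 ^ R * (X * (η * L ^ (R + 1))) + 6 * 2 ^ R * L ^ (R + 1) * X ^ (27 / 50 : ℝ) := by ring
      _ ≤ X / L ^ A / 4 + X / L ^ A / 4 := by
          apply add_le_add
          · have e1 : η * L ^ (R + 1) = 1 / (L ^ A * L) := by
              rw [hη, ha]
              have : L ^ (A + R + 2) = L ^ A * L * L ^ (R + 1) := by ring
              rw [this]
              field_simp
            rw [e1]
            have e2 : 4 * (2 : ℝ) ^ R * (X * (1 / (L ^ A * L))) = X / L ^ A * (4 * 2 ^ R / L) := by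
              field_simp
            rw [e2]
            have h0 : 0 ≤ X / L ^ A := by positivity
            have e3 : 4 * (2 : ℝ) ^ R / L ≤ 1 / 4 := by
              rw [div_le_div_iff₀ hL0 (by norm_num)]
              have : (2 : ℝ) ^ (R + 4) = 16 * 2 ^ R := by ring
              linarith
            nlinarith
          · rw [le_div_iff₀ (by norm_num), le_div_iff₀ (by positivity)]
            calc 6 * 2 ^ R * L ^ (R + 1) * X ^ (27 / 50 : ℝ) * 4 * L ^ A
                = (24 * 2 ^ R * L ^ (R + 1 + A)) * X ^ (27 / 50 : ℝ) := by rw [pow_add L (R + 1) A]; ring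
              _ ≤ X ^ (23 / 50 : ℝ) * X ^ (27 / 50 : ℝ) := mul_le_mul_of_nonneg_right hsm (by positivity)
              _ = X := by
                  rw [← Real.rpow_add hX0]
                  norm_num
      _ = X / L ^ A / 2 := by ring
  calc 2 / η * ∑ q ∈ TT W t X, ∑ k ∈ range (M + 2), ∑ j ∈ range J, ((j : ℝ) + 1) *
        (tau (Pr q) ^ C * |EPhi (X * Real.exp (-(k * η)) * Real.exp (-1 - j / 2)) (W * Pr q) (bq q)|) +
      2 * (L * ∑ q ∈ TT W t X, (tau (Pr q) ^ C * ((X * η + 1) / ((W * Pr q : ℕ) : ℝ) + 1 +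
        (X * η + 1) / (Nat.totient (W * Pr q) : ℝ))))
      ≤ X / L ^ A / 2 + X / L ^ A / 2 := by
        apply add_le_add
        · exact (mul_le_mul_of_nonneg_left p1 (by positivity)).trans p1'
        · refine le_trans ?_ p2'
          apply mul_le_mul_of_nonneg_left _ (by norm_num)
          exact mul_le_mul_of_nonneg_left p2 hL0.le
    _ = X / L ^ A := by ring

end Pool.Agent.Q66.LD
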